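import Pool.Agent.Lib.MP_5e14a0_um.Ring

/-!
The integral group ring `ℤ[A]` of a finite abelian group `A` (written additively):
the endomorphisms `X ↦ X^(t)`, the inversion, the augmentation and the sum of all group elements.
-/

namespace Pool.Agent.Lib.MP_5e14a0_um

open AddMonoidAlgebra

variable {A : Type*} [AddCommGroup A]

/-- the ring endomorphism of `ℤ[A]` induced by `x ↦ t x` -/
noncomputable def psi (A : Type*) [AddCommGroup A] (t : ℕ) :
    AddMonoidAlgebra ℤ A →+* AddMonoidAlgebra ℤ A :=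
  mapDomainRingHom ℤ (nsmulAddMonoidHom (α := A) t)

/-- the ring endomorphism of `ℤ[A]` induced by `x ↦ -x` -/
noncomputable def star (A : Type*) [AddCommGroup A] :
    AddMonoidAlgebra ℤ A →+* AddMonoidAlgebra ℤ A :=
  mapDomainRingHom ℤ (negAddMonoidHom (α := A))

/-- the augmentation -/
noncomputable def aug (A : Type*) [AddCommGroup A] : AddMonoidAlgebra ℤ A →+* ℤ :=
  liftNCRingHom (RingHom.id ℤ) (1 : Multiplicative A →* ℤ) (fun _ _ => Commute.all _ _)

@[simp] lemma psi_single (t : ℕ) (a : A) (r : ℤ) :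
    psi A t (single a r) = single (t • a) r := by
  simp [psi]

@[simp] lemma star_single (a : A) (r : ℤ) : star A (single a r) = single (-a) r := by
  simp [star]

@[simp] lemma aug_single (a : A) (r : ℤ) : aug A (single a r) = r := by
  simp [aug, liftNCRingHom_single]

/-- two ring homomorphisms which agree on all `single a r` are equal, pointwise version -/
lemma hom_eq {S : Type*} [Semiring S] (f g : AddMonoidAlgebra ℤ A →+* S)
    (h : ∀ a r, f (single a r) = g (single a r)) (X : AddMonoidAlgebra ℤ A) : f X = g X := by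
  have : (f : AddMonoidAlgebra ℤ A →+ S) = (g : AddMonoidAlgebra ℤ A →+ S) := by
    apply addMonoidHom_ext
    intro a r
    exact h a r
  exact DFunLike.congr_fun this X

lemma psi_psi (s t : ℕ) (X : AddMonoidAlgebra ℤ A) : psi A s (psi A t X) = psi A (s * t) X := by
  have := hom_eq ((psi A s).comp (psi A t)) (psi A (s * t)) (by
    intro a r
    simp [mul_nsmul']) X
  simpa using this

lemma psi_congr {s t : ℕ} (h : ∀ x : A, s • x = t • x) (X : AddMonoidAlgebra ℤ A) :
    psi A s X = psi A t X :=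
  hom_eq _ _ (by intro a r; simp [h a]) X

lemma psi_one (X : AddMonoidAlgebra ℤ A) : psi A 1 X = X := by
  have := hom_eq (psi A 1) (RingHom.id _) (by intro a r; simp) X
  simpa using this

lemma star_star (X : AddMonoidAlgebra ℤ A) : star A (star A X) = X := by
  have := hom_eq ((star A).comp (star A)) (RingHom.id _) (by intro a r; simp) X
  simpa using this

lemma star_psi (t : ℕ) (X : AddMonoidAlgebra ℤ A) : star A (psi A t X) = psi A t (star A X) := by
  have := hom_eq ((star A).comp (psi A t)) ((psi A t).comp (star A)) (by intro a r; simp) X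
  simpa using this

lemma aug_psi (t : ℕ) (X : AddMonoidAlgebra ℤ A) : aug A (psi A t X) = aug A X := by
  have := hom_eq ((aug A).comp (psi A t)) (aug A) (by intro a r; simp) X
  simpa using this

lemma aug_star (X : AddMonoidAlgebra ℤ A) : aug A (star A X) = aug A X := by
  have := hom_eq ((aug A).comp (star A)) (aug A) (by intro a r; simp) X
  simpa using this

lemma single_zero_natCast (n : ℕ) : (single (0 : A) (n : ℤ)) = (n : AddMonoidAlgebra ℤ A) := rfl

lemma single_zero_intCast (n : ℤ) : (single (0 : A) n) = (n : AddMonoidAlgebra ℤ A) := rfl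

/-- coefficients of `n * X` -/
lemma coeff_natCast_mul (n : ℕ) (X : AddMonoidAlgebra ℤ A) (g : A) :
    ((n : AddMonoidAlgebra ℤ A) * X).coeff g = n * X.coeff g := by
  rw [← single_zero_natCast]
  exact coeff_single_zero_mul X _ g

lemma natCast_mul_cancel {n : ℕ} (hn : 0 < n) {X Y : AddMonoidAlgebra ℤ A}
    (h : (n : AddMonoidAlgebra ℤ A) * X = n * Y) : X = Y := by
  ext g
  have h1 := congrArg (fun Z => Z.coeff g) h
  simp only [coeff_natCast_mul] at h1
  have h2 : (n : ℤ) ≠ 0 := by exact_mod_cast hn.ne'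
  exact mul_left_cancel₀ h2 h1

lemma natCast_mul_eq_zero {n : ℕ} (hn : 0 < n) {X : AddMonoidAlgebra ℤ A}
    (h : (n : AddMonoidAlgebra ℤ A) * X = 0) : X = 0 :=
  natCast_mul_cancel hn (by rw [h, mul_zero])

/-- the Frobenius congruence -/
lemma psi_frob {p : ℕ} (hp : p.Prime) (X : AddMonoidAlgebra ℤ A) :
    (p : AddMonoidAlgebra ℤ A) ∣ psi A p X - X ^ p := by
  induction X using AddMonoidAlgebra.induction_linear with
  | zero => simp [hp.ne_zero]
  | add X Y hX hY =>
    have h1 : (p : AddMonoidAlgebra ℤ A) ∣ (X + Y) ^ p - (X ^ p + Y ^ p) := by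
      obtain ⟨r, hr⟩ := exists_add_pow_prime_eq hp X Y
      refine ⟨X * Y * r, ?_⟩
      rw [hr]
      ring
    have h2 : psi A p (X + Y) - (X + Y) ^ p = (psi A p X - X ^ p) + (psi A p Y - Y ^ p)
        - ((X + Y) ^ p - (X ^ p + Y ^ p)) := by
      rw [map_add]; ring
    rw [h2]
    exact dvd_sub (dvd_add hX hY) h1
  | single a r =>
    rw [psi_single, single_pow, ← single_sub]
    have h1 : (p : ℤ) ∣ r - r ^ p := by
      have := Fact.mk hp
      have h2 : ((r - r ^ p : ℤ) : ZMod p) = 0 := by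
        push_cast
        rw [ZMod.pow_card]
        simp
      exact (ZMod.intCast_zmod_eq_zero_iff_dvd _ p).mp h2
    obtain ⟨c, hc⟩ := h1
    refine ⟨single (p • a) c, ?_⟩
    rw [hc, ← single_zero_natCast, single_mul_single]
    simp

/-- iterating the Frobenius congruence -/
lemma psi_pow_sub {p : ℕ} (hp : p.Prime) (i : ℕ) (X : AddMonoidAlgebra ℤ A) :
    (p : AddMonoidAlgebra ℤ A) ∣ psi A (p ^ i) X - X ^ (p ^ i) := by
  induction i generalizing X with
  | zero => simp [psi_one]
  | succ i ih =>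
    have h1 : psi A (p ^ (i + 1)) X - X ^ (p ^ (i + 1))
        = psi A p (psi A (p ^ i) X - X ^ (p ^ i))
          + (psi A p (X ^ (p ^ i)) - (X ^ (p ^ i)) ^ p) := by
      rw [map_sub, psi_psi, ← pow_mul, ← pow_succ, pow_succ']
      ring
    rw [h1]
    refine dvd_add ?_ (psi_frob hp _)
    obtain ⟨c, hc⟩ := ih X
    rw [hc]
    exact ⟨psi A p c, by rw [map_mul, map_natCast]⟩

/-- congruent exponents act in the same way -/
lemma smul_congr_of_modEq {r s d : ℕ} (h : r ≡ s [MOD d]) {x : A} (hx : d • x = 0) :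
    r • x = s • x := by
  apply nsmul_eq_nsmul_iff_modEq.mpr
  exact h.of_dvd (addOrderOf_dvd_of_nsmul_eq_zero hx)

lemma card_nsmul_eq_zero'' [Finite A] (x : A) : Nat.card A • x = 0 :=
  addOrderOf_dvd_iff_nsmul_eq_zero.mp (addOrderOf_dvd_natCard x)

lemma exists_pow_smul [Finite A] {p : ℕ} (hpA : Nat.Coprime p (Nat.card A)) :
    ∃ f : ℕ, 0 < f ∧ ∀ x : A, p ^ f • x = x := by
  have hcard : 0 < Nat.card A := Nat.card_pos
  refine ⟨(Nat.card A).totient, Nat.totient_pos.mpr hcard, ?_⟩
  intro x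
  have h1 : p ^ (Nat.card A).totient ≡ 1 [MOD Nat.card A] := Nat.ModEq.pow_totient hpA
  rw [smul_congr_of_modEq h1 (card_nsmul_eq_zero'' x), one_nsmul]

/-- `X ^ (p ^ f) ≡ X (mod p)` for a suitable `f > 0` -/
lemma exists_pow_sub_dvd [Finite A] {p : ℕ} (hp : p.Prime) (hpA : Nat.Coprime p (Nat.card A)) :
    ∃ f : ℕ, 0 < f ∧ ∀ X : AddMonoidAlgebra ℤ A, (p : AddMonoidAlgebra ℤ A) ∣ X ^ (p ^ f) - X := by
  obtain ⟨f, hf, h⟩ := exists_pow_smul hpA
  refine ⟨f, hf, fun X => ?_⟩
  have h1 := psi_pow_sub hp f X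
  have h2 : psi A (p ^ f) X = X := by
    rw [psi_congr (t := 1) (by intro x; rw [h x, one_nsmul]), psi_one]
  rw [h2] at h1
  have h3 : X ^ (p ^ f) - X = -(X - X ^ (p ^ f)) := by ring
  rw [h3]
  exact (dvd_neg).mpr h1

/-- `X^(p)` is a multiple of `X` modulo `p ^ a` -/
lemma psi_dvd [Finite A] {p : ℕ} (hp : p.Prime) (hpA : Nat.Coprime p (Nat.card A)) (a : ℕ)
    (X : AddMonoidAlgebra ℤ A) :
    ∃ Y : AddMonoidAlgebra ℤ A, (p : AddMonoidAlgebra ℤ A) ^ a ∣ psi A p X - X * Y := by
  obtain ⟨f, hf, h⟩ := exists_pow_sub_dvd hp hpA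
  exact frob_dvd hp (psi A p) (psi_frob hp) hf h a X

/-- `X^(p^j)` is a multiple of `X` modulo `p ^ a` -/
lemma psi_pow_dvd [Finite A] {p : ℕ} (hp : p.Prime) (hpA : Nat.Coprime p (Nat.card A)) (a j : ℕ)
    (X : AddMonoidAlgebra ℤ A) :
    ∃ Y : AddMonoidAlgebra ℤ A, (p : AddMonoidAlgebra ℤ A) ^ a ∣ psi A (p ^ j) X - X * Y := by
  induction j with
  | zero => exact ⟨1, by simp [psi_one]⟩
  | succ j ih =>
    obtain ⟨Y, c, hY⟩ := ih
    obtain ⟨Z, d, hZ⟩ := psi_dvd hp hpA a X
    refine ⟨Z * psi A p Y, psi A p c + d * psi A p Y, ?_⟩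
    have h1 : psi A (p ^ (j + 1)) X = psi A p (psi A (p ^ j) X) := by
      rw [psi_psi, pow_succ']
    have h2 : psi A (p ^ j) X = X * Y + (p : AddMonoidAlgebra ℤ A) ^ a * c := by
      rw [← hY]; ring
    have h3 : psi A p X = X * Z + (p : AddMonoidAlgebra ℤ A) ^ a * d := by
      rw [← hZ]; ring
    rw [h1, h2, map_add, map_mul, map_mul, map_pow, map_natCast, h3]
    ring

/-- reducedness: `N ∣ U` if `U ^ j = N ^ j * w` and `N` is prime to the order of the group -/
lemma natCast_dvd_of_pow_eq [Finite A] {N : ℕ} (hN : 0 < N) (hNA : Nat.Coprime N (Nat.card A))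
    {j : ℕ} (hj : 1 ≤ j) {U w : AddMonoidAlgebra ℤ A}
    (h : U ^ j = (N : AddMonoidAlgebra ℤ A) ^ j * w) : (N : AddMonoidAlgebra ℤ A) ∣ U := by
  apply nat_dvd_of_pow_eq N hN _ j hj U w h
  intro p hp hpN
  have hpA : Nat.Coprime p (Nat.card A) := Nat.Coprime.coprime_dvd_left hpN hNA
  exact ⟨exists_pow_sub_dvd hp hpA, fun x hx => natCast_mul_eq_zero hp.pos hx⟩

/-- the trace form -/
lemma coeff_mul_star [Fintype A] (X : AddMonoidAlgebra ℤ A) :
    (X * star A X).coeff 0 = ∑ g : A, X.coeff g ^ 2 := by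
  classical
  have h1 : ∀ g, (star A X).coeff g = X.coeff (-g) := by
    intro g
    induction X using AddMonoidAlgebra.induction_linear with
    | zero => simp
    | add X Y hX hY => simp [hX, hY]
    | single a r =>
      simp only [star_single, coeff_single, Finsupp.single_apply]
      congr 1
      apply propext
      constructor
      · rintro rfl; simp
      · intro h; rw [h]; simp
  rw [coeff_mul_apply_left]
  rw [Finsupp.sum_fintype _ _ (by intro i; simp)]
  apply Finset.sum_congr rfl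
  intro g _
  rw [h1]
  simp [sq]

/-- elements with `X * X^(-1) = 1` are trivial units -/
lemma eq_single_of_mul_star_eq_one [Finite A] {X : AddMonoidAlgebra ℤ A} (h : X * star A X = 1) :
    ∃ g : A, X = single g 1 ∨ X = - single g 1 := by
  classical
  have := Fintype.ofFinite A
  have h1 := coeff_mul_star X
  rw [h] at h1
  have h2 : (1 : AddMonoidAlgebra ℤ A).coeff 0 = 1 := by simp [one_def]
  rw [h2] at h1
  -- some coefficient is nonzero
  have h3 : ∃ g, X.coeff g ≠ 0 := by
    by_contra hcon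
    push Not at hcon
    rw [Finset.sum_eq_zero (fun g _ => by rw [hcon g]; ring)] at h1
    exact one_ne_zero h1
  obtain ⟨g, hg⟩ := h3
  refine ⟨g, ?_⟩
  have h4 : ∀ y, y ≠ g → X.coeff y = 0 := by
    intro y hy
    by_contra hne
    have h5 : X.coeff g ^ 2 + X.coeff y ^ 2 ≤ ∑ x : A, X.coeff x ^ 2 := by
      have h6 : ∑ x ∈ ({g, y} : Finset A), X.coeff x ^ 2 ≤ ∑ x : A, X.coeff x ^ 2 :=
        Finset.sum_le_sum_of_subset_of_nonneg (Finset.subset_univ _)
          (fun i _ _ => sq_nonneg _)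
      rwa [Finset.sum_pair (Ne.symm hy)] at h6
    have h7 : 1 ≤ X.coeff g ^ 2 := Int.add_one_le_iff.mpr (sq_pos_iff.mpr hg)
    have h8 : 1 ≤ X.coeff y ^ 2 := Int.add_one_le_iff.mpr (sq_pos_iff.mpr hne)
    linarith
  have h9 : X.coeff g ^ 2 = 1 := by
    rw [h1]
    rw [Finset.sum_eq_single g]
    · intro b _ hb; rw [h4 b hb]; ring
    · intro hh; exact absurd (Finset.mem_univ g) hh
  rcases mul_self_eq_one_iff.mp ((sq _).symm.trans h9) with h10 | h10
  · left
    ext y
    rcases eq_or_ne y g with rfl | hy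
    · simp [h10]
    · simp [h4 y hy, Ne.symm hy]
  · right
    ext y
    rcases eq_or_ne y g with rfl | hy
    · simp [h10]
    · simp [h4 y hy, Ne.symm hy]

end Pool.Agent.Lib.MP_5e14a0_um
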