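import Pool.Agent.Lib.MP_5e14a0_um.GroupRing

/-!
The finite order argument: if `M X^(r) = V X` and the support of `V` lies in a coset of the
`E`-torsion subgroup, then `X^(r^φ(E))` is a translate of `X`.
-/

namespace Pool.Agent.Lib.MP_5e14a0_um

open AddMonoidAlgebra

variable {A : Type*} [AddCommGroup A]

/-- the sum of all group elements -/
noncomputable def allOne (A : Type*) [AddCommGroup A] [Fintype A] : AddMonoidAlgebra ℤ A :=
  ∑ g : A, single g 1

lemma mul_allOne [Fintype A] (X : AddMonoidAlgebra ℤ A) :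
    X * allOne A = ((aug A X : ℤ) : AddMonoidAlgebra ℤ A) * allOne A := by
  induction X using AddMonoidAlgebra.induction_linear with
  | zero => simp
  | add X Y hX hY => rw [add_mul, hX, hY, map_add]; push_cast; ring
  | single a r =>
    rw [aug_single, ← single_zero_intCast, allOne, Finset.mul_sum, Finset.mul_sum]
    simp only [single_mul_single, mul_one, zero_add]
    exact Equiv.sum_comp (Equiv.addLeft a) (fun g => single g r)

lemma psi_allOne [Fintype A] {t : ℕ} (ht : Nat.Coprime t (Nat.card A)) :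
    psi A t (allOne A) = allOne A := by
  rw [allOne, map_sum]
  simp only [psi_single]
  have hbij : Function.Bijective (fun x : A => t • x) :=
    Nat.Coprime.nsmul_right_bijective ht.symm
  exact hbij.sum_comp (fun g => single g (1 : ℤ))

lemma star_allOne [Fintype A] : star A (allOne A) = allOne A := by
  rw [allOne, map_sum]
  simp only [star_single]
  exact Equiv.sum_comp (Equiv.neg A) (fun g => single g (1 : ℤ))

lemma aug_allOne [Fintype A] : aug A (allOne A) = Nat.card A := by
  rw [allOne, map_sum]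
  simp

/-- the torsion subgroup -/
def tor (A : Type*) [AddCommGroup A] (E : ℕ) : AddSubgroup A :=
  (nsmulAddMonoidHom (α := A) E).ker

lemma mem_tor {E : ℕ} {x : A} : x ∈ tor A E ↔ E • x = 0 := by
  simp [tor, AddMonoidHom.mem_ker]

/-- the inclusion of the group ring of the torsion subgroup -/
noncomputable def inc (A : Type*) [AddCommGroup A] (E : ℕ) :
    AddMonoidAlgebra ℤ (tor A E) →+* AddMonoidAlgebra ℤ A :=
  mapDomainRingHom ℤ (tor A E).subtype

@[simp] lemma inc_single (E : ℕ) (a : tor A E) (r : ℤ) :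
    inc A E (single a r) = single (a : A) r := by
  simp [inc]

lemma psi_inc (E t : ℕ) (W : AddMonoidAlgebra ℤ (tor A E)) :
    psi A t (inc A E W) = inc A E (psi (tor A E) t W) := by
  have := hom_eq ((psi A t).comp (inc A E)) ((inc A E).comp (psi (tor A E) t)) (by
    intro a r; simp) W
  simpa using this

/-- elements supported on a coset of the torsion subgroup -/
lemma exists_inc {E : ℕ} {V : AddMonoidAlgebra ℤ A}
    (hsupp : ∀ x y, V.coeff x ≠ 0 → V.coeff y ≠ 0 → E • (x - y) = 0) :
    ∃ (x0 : A) (W : AddMonoidAlgebra ℤ (tor A E)), V = single x0 1 * inc A E W := by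
  classical
  by_cases hV : ∃ x0, V.coeff x0 ≠ 0
  · obtain ⟨x0, hx0⟩ := hV
    obtain ⟨V', hV'⟩ : ∃ V' : AddMonoidAlgebra ℤ A, V' = single (-x0) 1 * V := ⟨_, rfl⟩
    have hinj : Function.Injective ((tor A E).subtype : tor A E → A) :=
      Subtype.val_injective
    have hsub : (↑V'.coeff.support : Set A) ⊆ Set.range ((tor A E).subtype : tor A E → A) := by
      intro g hg
      have hg1 : V'.coeff g ≠ 0 := by simpa using hg
      rw [hV', coeff_single_mul_apply] at hg1
      have hg2 : V.coeff (x0 + g) ≠ 0 := by simpa using hg1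
      have hg3 := hsupp (x0 + g) x0 hg2 hx0
      have hg4 : g ∈ tor A E := by
        rw [mem_tor]
        simpa using hg3
      exact ⟨⟨g, hg4⟩, rfl⟩
    refine ⟨x0, comapDomain _ hinj V', ?_⟩
    have h1 : inc A E (comapDomain _ hinj V') = V' := mapDomain_comapDomain hsub hinj
    rw [h1, hV', ← mul_assoc, single_mul_single]
    simp [← one_def]
  · push Not at hV
    refine ⟨0, 0, ?_⟩
    ext g
    simp [hV g]

lemma smul_tor_eq [Finite A] {E r : ℕ} (hr : Nat.Coprime r (Nat.card A)) {x : A}
    (hx : E • x = 0) : r ^ E.totient • x = x := by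
  have h1 : addOrderOf x ∣ E := addOrderOf_dvd_of_nsmul_eq_zero hx
  have h2 : addOrderOf x ∣ Nat.card A := addOrderOf_dvd_natCard x
  have h3 : Nat.Coprime r (addOrderOf x) := Nat.Coprime.coprime_dvd_right h2 hr
  have h4 : (addOrderOf x).totient ∣ E.totient := Nat.totient_dvd_of_dvd h1
  obtain ⟨k, hk⟩ := h4
  have h5 : r ^ E.totient ≡ 1 [MOD addOrderOf x] := by
    rw [hk, pow_mul]
    have := (Nat.ModEq.pow_totient h3).pow k
    simpa using this
  rw [smul_congr_of_modEq h5 (addOrderOf_nsmul_eq_zero x), one_nsmul]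

/-- the finite order argument: if `M X^(r) = V X` with `V V^(-1) = M ^ 2` and `V` is mapped to a
translate by `r ^ s`, then `X` is mapped to a translate by `r ^ s` -/
lemma key [Fintype A] (X : AddMonoidAlgebra ℤ A) (n : ℕ) (μ : ℤ) (hn : 0 < n)
    (hX : X * star A X = (n : AddMonoidAlgebra ℤ A) + (μ : AddMonoidAlgebra ℤ A) * allOne A)
    (haug : aug A X ≠ 0) (r : ℕ) (hr : Nat.Coprime r (Nat.card A))
    (M : ℕ) (hM : 0 < M) (hMA : Nat.Coprime M (Nat.card A)) (V : AddMonoidAlgebra ℤ A)
    (hV : V * star A V = (M : AddMonoidAlgebra ℤ A) ^ 2)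
    (hrel : (M : AddMonoidAlgebra ℤ A) * psi A r X = V * X)
    (s : ℕ) (hs : ∃ h : A, psi A (r ^ s) V = single h 1 * V) :
    ∃ g : A, psi A (r ^ s) X = single g 1 * X := by
  classical
  obtain ⟨h0, hs⟩ := hs
  -- iterate
  have h1 : ∀ i : ℕ, ∃ (U : AddMonoidAlgebra ℤ A),
      (M : AddMonoidAlgebra ℤ A) ^ i * psi A (r ^ i) X = U * X ∧
      U * star A U = ((M : AddMonoidAlgebra ℤ A) ^ i) ^ 2 ∧
      ∃ h : A, psi A (r ^ s) U = single h 1 * U := by
    intro i
    induction i with
    | zero =>
      refine ⟨1, ?_, ?_, 0, ?_⟩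
      · simp [psi_one]
      · simp
      · simp [← one_def]
    | succ i ih =>
      obtain ⟨W, h2, h3, h, h4⟩ := ih
      refine ⟨psi A r W * V, ?_, ?_, r • h + h0, ?_⟩
      · have h5 := congrArg (psi A r) h2
        rw [map_mul, map_mul, map_pow, map_natCast, psi_psi, ← pow_succ'] at h5
        calc (M : AddMonoidAlgebra ℤ A) ^ (i + 1) * psi A (r ^ (i + 1)) X
            = (M : AddMonoidAlgebra ℤ A) *
              ((M : AddMonoidAlgebra ℤ A) ^ i * psi A (r ^ (i + 1)) X) := by ring
          _ = psi A r W * ((M : AddMonoidAlgebra ℤ A) * psi A r X) := by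
              rw [h5]; ring
          _ = _ := by
              rw [hrel]; ring
      · have h6 := congrArg (psi A r) h3
        rw [map_mul, ← star_psi, map_pow, map_pow, map_natCast] at h6
        rw [map_mul]
        calc psi A r W * V * (star A (psi A r W) * star A V)
            = (psi A r W * star A (psi A r W)) * (V * star A V) := by ring
          _ = _ := by rw [h6, hV]; ring
      · have h7 := congrArg (psi A r) h4
        rw [psi_psi, mul_comm r (r ^ s), ← psi_psi, map_mul, psi_single] at h7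
        rw [map_mul, h7, hs]
        have h8 : (single (r • h + h0) (1 : ℤ)) = single (r • h) 1 * single h0 1 := by
          rw [single_mul_single, mul_one]
        rw [h8]
        ring
  obtain ⟨U, h2, h3, h, hUT⟩ := h1 s
  obtain ⟨T, hT⟩ : ∃ T : ℕ, T = r ^ s := ⟨_, rfl⟩
  obtain ⟨N, hN⟩ : ∃ N : ℕ, N = M ^ s := ⟨_, rfl⟩
  have hNpos : 0 < N := by rw [hN]; positivity
  have hNA : Nat.Coprime N (Nat.card A) := by rw [hN]; exact Nat.Coprime.pow_left _ hMA
  have hTA : Nat.Coprime T (Nat.card A) := by rw [hT]; exact Nat.Coprime.pow_left _ hr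
  have hNcast : (N : AddMonoidAlgebra ℤ A) = (M : AddMonoidAlgebra ℤ A) ^ s := by
    rw [hN]; push_cast; rfl
  rw [← hT, ← hNcast] at h2
  rw [← hNcast] at h3
  rw [← hT] at hUT
  -- second iteration
  have h4 : ∀ i : ℕ, ∃ z : A, (N : AddMonoidAlgebra ℤ A) ^ i * psi A (T ^ i) X
      = single z 1 * U ^ i * X := by
    intro i
    induction i with
    | zero => exact ⟨0, by simp [psi_one, ← one_def]⟩
    | succ i ih =>
      obtain ⟨z, hz⟩ := ih
      refine ⟨T • z + i • h, ?_⟩
      have h5 := congrArg (psi A T) hz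
      rw [map_mul, map_mul, map_mul, map_pow, map_pow, map_natCast, psi_psi, psi_single, hUT,
        ← pow_succ'] at h5
      have h6 : (single (T • z + i • h) (1 : ℤ)) = single (T • z) 1 * (single h 1) ^ i := by
        rw [single_pow, single_mul_single, one_pow, mul_one]
      calc (N : AddMonoidAlgebra ℤ A) ^ (i + 1) * psi A (T ^ (i + 1)) X
          = (N : AddMonoidAlgebra ℤ A) *
            ((N : AddMonoidAlgebra ℤ A) ^ i * psi A (T ^ (i + 1)) X) := by ring
        _ = single (T • z) 1 * (single h 1 * U) ^ i * ((N : AddMonoidAlgebra ℤ A) * psi A T X) := by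
            rw [h5]; ring
        _ = _ := by rw [h2, h6]; ring
  obtain ⟨f, hf, hfT⟩ := exists_pow_smul hTA
  obtain ⟨z, hz⟩ := h4 f
  have h5 : psi A (T ^ f) X = X := by
    rw [psi_congr (t := 1) (by intro x; rw [hfT x, one_nsmul]), psi_one]
  rw [h5] at hz
  -- augmentations
  have h6 : (aug A U) ^ f = (N : ℤ) ^ f := by
    have h7 := congrArg (aug A) hz
    rw [map_mul, map_mul, map_mul, map_pow, map_pow, map_natCast, aug_single, one_mul] at h7
    exact (mul_right_cancel₀ haug h7).symm
  have h7 : (N : AddMonoidAlgebra ℤ A) ^ f = single z 1 * U ^ f := by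
    have h8 : (N : AddMonoidAlgebra ℤ A) ^ f * (X * star A X)
        = single z 1 * U ^ f * (X * star A X) := by
      rw [← mul_assoc, hz]; ring
    rw [hX] at h8
    have h9 : single z 1 * U ^ f * allOne A = (N : AddMonoidAlgebra ℤ A) ^ f * allOne A := by
      rw [mul_allOne, map_mul, map_pow, aug_single, one_mul, h6]
      push_cast
      rfl
    have h10 : (n : AddMonoidAlgebra ℤ A) * ((N : AddMonoidAlgebra ℤ A) ^ f)
        = (n : AddMonoidAlgebra ℤ A) * (single z 1 * U ^ f) := by
      have h11 : (N : AddMonoidAlgebra ℤ A) ^ f *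
            ((n : AddMonoidAlgebra ℤ A) + (μ : AddMonoidAlgebra ℤ A) * allOne A)
          = (n : AddMonoidAlgebra ℤ A) * (N : AddMonoidAlgebra ℤ A) ^ f
            + (μ : AddMonoidAlgebra ℤ A) * ((N : AddMonoidAlgebra ℤ A) ^ f * allOne A) := by ring
      have h12 : single z 1 * U ^ f *
            ((n : AddMonoidAlgebra ℤ A) + (μ : AddMonoidAlgebra ℤ A) * allOne A)
          = (n : AddMonoidAlgebra ℤ A) * (single z 1 * U ^ f)
            + (μ : AddMonoidAlgebra ℤ A) * (single z 1 * U ^ f * allOne A) := by ring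
      rw [h11, h12, h9] at h8
      exact add_right_cancel h8
    exact natCast_mul_cancel hn h10
  have h8 : U ^ f = (N : AddMonoidAlgebra ℤ A) ^ f * single (-z) 1 := by
    rw [h7]
    have : single z (1 : ℤ) * U ^ f * single (-z) 1 = (single z (1 : ℤ) * single (-z) 1) * U ^ f := by
      ring
    rw [this, single_mul_single]
    simp [← one_def]
  obtain ⟨u, hu⟩ := natCast_dvd_of_pow_eq hNpos hNA hf h8
  have h9 : u * star A u = 1 := by
    rw [hu, map_mul, map_natCast] at h3
    have h10 : ((N ^ 2 : ℕ) : AddMonoidAlgebra ℤ A) * (u * star A u)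
        = ((N ^ 2 : ℕ) : AddMonoidAlgebra ℤ A) * 1 := by
      calc ((N ^ 2 : ℕ) : AddMonoidAlgebra ℤ A) * (u * star A u)
          = (N : AddMonoidAlgebra ℤ A) * u * ((N : AddMonoidAlgebra ℤ A) * star A u) := by
            push_cast; ring
        _ = (N : AddMonoidAlgebra ℤ A) ^ 2 := h3
        _ = _ := by push_cast; ring
    exact natCast_mul_cancel (by positivity) h10
  have h10 : psi A T X = u * X := by
    rw [hu] at h2
    apply natCast_mul_cancel hNpos
    rw [h2]; ring
  rw [← hT]
  obtain ⟨g, hg | hg⟩ := eq_single_of_mul_star_eq_one h9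
  · exact ⟨g, by rw [h10, hg]⟩
  · exfalso
    rw [hg] at h10
    have h11 := congrArg (aug A) h10
    rw [aug_psi, map_mul, map_neg, aug_single] at h11
    apply haug
    linarith

/-- powers acting trivially on the torsion subgroup map `V` to a translate -/
lemma psi_translate_of_trivial [Fintype A] {E : ℕ} {V : AddMonoidAlgebra ℤ A}
    (hsupp : ∀ x y, V.coeff x ≠ 0 → V.coeff y ≠ 0 → E • (x - y) = 0) {T : ℕ}
    (hT : ∀ x : A, E • x = 0 → T • x = x) : ∃ h : A, psi A T V = single h 1 * V := by
  obtain ⟨x0, V1, hV1⟩ := exists_inc hsupp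
  refine ⟨T • x0 - x0, ?_⟩
  have h1 : psi (tor A E) T V1 = V1 := by
    rw [psi_congr (t := 1), psi_one]
    intro x
    apply Subtype.ext
    rw [one_nsmul, AddSubgroup.coe_nsmul]
    exact hT x (mem_tor.mp x.2)
  rw [hV1, map_mul, psi_single, psi_inc, h1, ← mul_assoc, single_mul_single]
  simp

end Pool.Agent.Lib.MP_5e14a0_um
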