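import Pool.Agent.Lib.MP_5e14a0_um.Support

/-!
The element `F` with `m X^(t) = F X` and `F F^(-1) = m ^ 2`.
-/

namespace Pool.Agent.Lib.MP_5e14a0_um

open AddMonoidAlgebra

variable {A : Type*} [AddCommGroup A]

lemma coeff_allOne [Fintype A] (g : A) : (allOne A).coeff g = 1 := by
  classical
  rw [allOne, coeff_sum, Finsupp.finsetSum_apply]
  simp [Finsupp.single_apply]

lemma aug_eq_sum [Fintype A] (X : AddMonoidAlgebra ℤ A) : aug A X = ∑ g : A, X.coeff g := by
  classical
  induction X using AddMonoidAlgebra.induction_linear with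
  | zero => simp
  | add X Y hX hY => rw [map_add, hX, hY]; simp [Finset.sum_add_distrib]
  | single a r => simp [Finsupp.single_apply]

lemma coeff_intCast_mul (n : ℤ) (X : AddMonoidAlgebra ℤ A) (g : A) :
    ((n : AddMonoidAlgebra ℤ A) * X).coeff g = n * X.coeff g := by
  rw [← single_zero_intCast]
  exact coeff_single_zero_mul X _ g

/-- the second multiplier theorem without size condition: the element `F` -/
lemma exists_F [Fintype A] (X : AddMonoidAlgebra ℤ A) (m n1 : ℕ) (hn1 : 0 < n1)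
    (μ : ℤ) (hX : X * star A X = ((m * n1 : ℕ) : AddMonoidAlgebra ℤ A)
      + (μ : AddMonoidAlgebra ℤ A) * allOne A)
    (hcop : Nat.Coprime (m * n1) (Nat.card A)) (t : ℕ) (htA : Nat.Coprime t (Nat.card A))
    (ht : ∀ p : ℕ, p.Prime → p ∣ n1 → ∃ j : ℕ, ∀ x : A, t • x = p ^ j • x) :
    ∃ F : AddMonoidAlgebra ℤ A, F * star A F = (m : AddMonoidAlgebra ℤ A) ^ 2 ∧
      (m : AddMonoidAlgebra ℤ A) * psi A t X = F * X := by
  classical
  obtain ⟨Ew, hEw⟩ : ∃ Ew : AddMonoidAlgebra ℤ A, Ew = psi A t X * star A X := ⟨_, rfl⟩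
  -- congruences modulo prime powers
  have h1 : ∀ p a : ℕ, p.Prime → p ^ a ∣ n1 → ∀ g h : A,
      ((p ^ a : ℕ) : ℤ) ∣ Ew.coeff g - Ew.coeff h := by
    intro p a hp hpa g h
    rcases Nat.eq_zero_or_pos a with rfl | hapos
    · simp
    have hpn : p ∣ n1 := dvd_trans (dvd_pow_self p (by omega)) hpa
    have hpA : Nat.Coprime p (Nat.card A) :=
      Nat.Coprime.coprime_dvd_left (dvd_trans hpn (dvd_mul_left _ _)) hcop
    obtain ⟨j, hj⟩ := ht p hp hpn
    obtain ⟨Y, c, hY⟩ := psi_pow_dvd hp hpA a j X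
    obtain ⟨n2, hn2⟩ := hpa
    have h2 : psi A t X = X * Y + (p : AddMonoidAlgebra ℤ A) ^ a * c := by
      rw [psi_congr hj X, ← hY]; ring
    have h3 : Ew = ((p ^ a : ℕ) : AddMonoidAlgebra ℤ A) *
        (((m * n2 : ℕ) : AddMonoidAlgebra ℤ A) * Y + c * star A X)
        + ((μ * aug A Y : ℤ) : AddMonoidAlgebra ℤ A) * allOne A := by
      have h4 : Ew = (X * star A X) * Y + (p : AddMonoidAlgebra ℤ A) ^ a * (c * star A X) := by
        rw [hEw, h2]; ring
      have h5 : ((μ * aug A Y : ℤ) : AddMonoidAlgebra ℤ A) * allOne A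
          = (μ : AddMonoidAlgebra ℤ A) * (Y * allOne A) := by
        rw [mul_allOne Y]; push_cast; ring
      rw [h4, hX, h5, hn2]
      push_cast
      ring
    have h6 : ∀ g : A, Ew.coeff g = ((p ^ a : ℕ) : ℤ) *
        (((m * n2 : ℕ) : AddMonoidAlgebra ℤ A) * Y + c * star A X).coeff g + μ * aug A Y := by
      intro g
      conv_lhs => rw [h3]
      rw [coeff_add, Finsupp.add_apply, coeff_natCast_mul, coeff_intCast_mul, coeff_allOne,
        mul_one]
    rw [h6 g, h6 h]
    exact ⟨(((m * n2 : ℕ) : AddMonoidAlgebra ℤ A) * Y + c * star A X).coeff g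
      - (((m * n2 : ℕ) : AddMonoidAlgebra ℤ A) * Y + c * star A X).coeff h, by ring⟩
  -- congruence modulo n1
  have h2 : ∀ g h : A, (n1 : ℤ) ∣ Ew.coeff g - Ew.coeff h := by
    intro g h
    rw [Int.natCast_dvd, Nat.dvd_iff_prime_pow_dvd_dvd]
    intro p k hp hpk
    rw [← Int.natCast_dvd]
    exact h1 p k hp hpk g h
  -- comparison with μ
  have h3 : aug A Ew = (m * n1 : ℕ) + μ * (Nat.card A : ℤ) := by
    have h4 : aug A Ew = aug A (X * star A X) := by
      rw [hEw, map_mul, map_mul, aug_psi]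
    rw [h4, hX, map_add, map_mul, map_natCast, map_intCast, aug_allOne, Int.cast_id]
  have h4 : ∀ g : A, (n1 : ℤ) ∣ Ew.coeff g - μ := by
    intro g
    have h5 : (n1 : ℤ) ∣ ∑ h : A, (Ew.coeff g - Ew.coeff h) :=
      Finset.dvd_sum (fun h _ => h2 g h)
    rw [Finset.sum_sub_distrib, ← aug_eq_sum, h3, Finset.sum_const, Finset.card_univ,
      ← Nat.card_eq_fintype_card, nsmul_eq_mul] at h5
    have h6 : (n1 : ℤ) ∣ (Nat.card A : ℤ) * (Ew.coeff g - μ) := by
      have h7 : (Nat.card A : ℤ) * (Ew.coeff g - μ)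
          = ((Nat.card A : ℤ) * Ew.coeff g - (((m * n1 : ℕ) : ℤ) + μ * (Nat.card A : ℤ)))
            + n1 * m := by push_cast; ring
      rw [h7]
      exact dvd_add h5 (dvd_mul_right _ _)
    have h8 : IsCoprime (n1 : ℤ) (Nat.card A : ℤ) := by
      rw [Nat.isCoprime_iff_coprime]
      exact Nat.Coprime.coprime_dvd_left (dvd_mul_left _ _) hcop
    exact h8.dvd_of_dvd_mul_left h6
  choose q hq using h4
  obtain ⟨F, hFdef⟩ : ∃ F : AddMonoidAlgebra ℤ A, ∀ g, F.coeff g = q g :=
    ⟨ofCoeff (Finsupp.equivFunOnFinite.symm q), fun g => rfl⟩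
  have hF : (n1 : AddMonoidAlgebra ℤ A) * F
      = Ew - (μ : AddMonoidAlgebra ℤ A) * allOne A := by
    ext g
    rw [coeff_natCast_mul, hFdef, coeff_sub, Finsupp.sub_apply, coeff_intCast_mul, coeff_allOne,
      mul_one, hq g]
  have hJs : star A (allOne A) = allOne A := star_allOne
  have hJJ : allOne A * allOne A = ((Nat.card A : ℕ) : AddMonoidAlgebra ℤ A) * allOne A := by
    rw [mul_allOne, aug_allOne]; push_cast; rfl
  have hEJ : Ew * allOne A = (((m * n1 : ℕ) : AddMonoidAlgebra ℤ A)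
      + (μ : AddMonoidAlgebra ℤ A) * ((Nat.card A : ℕ) : AddMonoidAlgebra ℤ A)) * allOne A := by
    rw [mul_allOne, h3]; push_cast; rfl
  have hEsJ : star A Ew * allOne A = (((m * n1 : ℕ) : AddMonoidAlgebra ℤ A)
      + (μ : AddMonoidAlgebra ℤ A) * ((Nat.card A : ℕ) : AddMonoidAlgebra ℤ A)) * allOne A := by
    rw [mul_allOne, aug_star, h3]; push_cast; rfl
  have hEE : Ew * star A Ew = (((m * n1 : ℕ) : AddMonoidAlgebra ℤ A)
      + (μ : AddMonoidAlgebra ℤ A) * allOne A) ^ 2 := by
    have h5 : psi A t (X * star A X) = ((m * n1 : ℕ) : AddMonoidAlgebra ℤ A)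
        + (μ : AddMonoidAlgebra ℤ A) * allOne A := by
      rw [hX, map_add, map_mul, map_natCast, map_intCast, psi_allOne htA]
    calc Ew * star A Ew = psi A t (X * star A X) * (X * star A X) := by
          rw [hEw, map_mul, star_star, star_psi, map_mul]; ring
      _ = _ := by rw [h5, hX]; ring
  refine ⟨F, ?_, ?_⟩
  · have h5 : ((n1 ^ 2 : ℕ) : AddMonoidAlgebra ℤ A) * (F * star A F)
        = ((n1 ^ 2 : ℕ) : AddMonoidAlgebra ℤ A) * ((m : AddMonoidAlgebra ℤ A) ^ 2) := by
      calc ((n1 ^ 2 : ℕ) : AddMonoidAlgebra ℤ A) * (F * star A F)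
          = ((n1 : AddMonoidAlgebra ℤ A) * F) * star A ((n1 : AddMonoidAlgebra ℤ A) * F) := by
            rw [map_mul, map_natCast]; push_cast; ring
        _ = (Ew - (μ : AddMonoidAlgebra ℤ A) * allOne A)
            * (star A Ew - (μ : AddMonoidAlgebra ℤ A) * allOne A) := by
            rw [hF, map_sub, map_mul, map_intCast, hJs]
        _ = Ew * star A Ew - (μ : AddMonoidAlgebra ℤ A) * (Ew * allOne A)
            - (μ : AddMonoidAlgebra ℤ A) * (star A Ew * allOne A)
            + (μ : AddMonoidAlgebra ℤ A) ^ 2 * (allOne A * allOne A) := by ring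
        _ = _ := by
            rw [hEE, hEJ, hEsJ]
            have h6 : (((m * n1 : ℕ) : AddMonoidAlgebra ℤ A)
                + (μ : AddMonoidAlgebra ℤ A) * allOne A) ^ 2
                = ((m * n1 : ℕ) : AddMonoidAlgebra ℤ A) ^ 2
                + 2 * ((m * n1 : ℕ) : AddMonoidAlgebra ℤ A) * (μ : AddMonoidAlgebra ℤ A) * allOne A
                + (μ : AddMonoidAlgebra ℤ A) ^ 2 * (allOne A * allOne A) := by ring
            rw [h6, hJJ]
            push_cast
            ring
    exact natCast_mul_cancel (by positivity) h5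
  · have h5 : (n1 : AddMonoidAlgebra ℤ A) * ((m : AddMonoidAlgebra ℤ A) * psi A t X)
        = (n1 : AddMonoidAlgebra ℤ A) * (F * X) := by
      have h6 : (n1 : AddMonoidAlgebra ℤ A) * (F * X)
          = psi A t X * (X * star A X)
            - (μ : AddMonoidAlgebra ℤ A) * (X * allOne A) := by
        calc (n1 : AddMonoidAlgebra ℤ A) * (F * X)
            = ((n1 : AddMonoidAlgebra ℤ A) * F) * X := by ring
          _ = _ := by rw [hF, hEw]; ring
      have h7 : psi A t X * allOne A = X * allOne A := by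
        rw [mul_allOne, mul_allOne X, aug_psi]
      rw [h6, hX, mul_add]
      have h8 : psi A t X * ((μ : AddMonoidAlgebra ℤ A) * allOne A)
          = (μ : AddMonoidAlgebra ℤ A) * (X * allOne A) := by
        rw [← h7]; ring
      rw [h8]
      push_cast
      ring
    exact natCast_mul_cancel hn1 h5

/-- an element `F` with `F F^(-1) = m ^ 2` is mapped to a translate by every `T` which acts like a
power of `q` for every prime `q` dividing `m` -/
lemma self_multiplier [Finite A] (F : AddMonoidAlgebra ℤ A) {m : ℕ} (hm : 0 < m)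
    (hmA : Nat.Coprime m (Nat.card A)) (hF : F * star A F = (m : AddMonoidAlgebra ℤ A) ^ 2) (T : ℕ)
    (hT : ∀ q : ℕ, q.Prime → q ∣ m → ∃ i : ℕ, ∀ x : A, T • x = q ^ i • x) :
    ∃ g : A, psi A T F = single g 1 * F := by
  classical
  have := Fintype.ofFinite A
  obtain ⟨W0, hW0⟩ : ∃ W0 : AddMonoidAlgebra ℤ A, W0 = psi A T F * star A F := ⟨_, rfl⟩
  have h1 : ∀ q a : ℕ, q.Prime → q ^ a ∣ m ^ 2 → ∀ g : A,
      ((q ^ a : ℕ) : ℤ) ∣ W0.coeff g := by
    intro q a hq hqa g
    rcases Nat.eq_zero_or_pos a with rfl | hapos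
    · simp
    have hqm : q ∣ m := hq.dvd_of_dvd_pow (dvd_trans (dvd_pow_self q (by omega)) hqa)
    have hqA : Nat.Coprime q (Nat.card A) := Nat.Coprime.coprime_dvd_left hqm hmA
    obtain ⟨i, hi⟩ := hT q hq hqm
    obtain ⟨Y, c, hY⟩ := psi_pow_dvd hq hqA a i F
    obtain ⟨n2, hn2⟩ := hqa
    have h2 : psi A T F = F * Y + (q : AddMonoidAlgebra ℤ A) ^ a * c := by
      rw [psi_congr hi F, ← hY]; ring
    have h3 : W0 = ((q ^ a : ℕ) : AddMonoidAlgebra ℤ A) *
        ((n2 : AddMonoidAlgebra ℤ A) * Y + c * star A F) := by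
      have h4 : W0 = (F * star A F) * Y + (q : AddMonoidAlgebra ℤ A) ^ a * (c * star A F) := by
        rw [hW0, h2]; ring
      have h5 : (m : AddMonoidAlgebra ℤ A) ^ 2 = ((q ^ a * n2 : ℕ) : AddMonoidAlgebra ℤ A) := by
        rw [← hn2]; push_cast; rfl
      rw [h4, hF, h5]
      push_cast
      ring
    rw [h3, coeff_natCast_mul]
    exact dvd_mul_right _ _
  have h2 : ∀ g : A, ((m ^ 2 : ℕ) : ℤ) ∣ W0.coeff g := by
    intro g
    rw [Int.natCast_dvd, Nat.dvd_iff_prime_pow_dvd_dvd]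
    intro q k hq hqk
    rw [← Int.natCast_dvd]
    exact h1 q k hq hqk g
  choose w hw using h2
  obtain ⟨W, hWdef⟩ : ∃ W : AddMonoidAlgebra ℤ A, ∀ g, W.coeff g = w g :=
    ⟨ofCoeff (Finsupp.equivFunOnFinite.symm w), fun g => rfl⟩
  have hW : W0 = ((m ^ 2 : ℕ) : AddMonoidAlgebra ℤ A) * W := by
    ext g
    rw [coeff_natCast_mul, hWdef, hw g]
  have h3 : W * star A W = 1 := by
    have h4 : ((m ^ 4 : ℕ) : AddMonoidAlgebra ℤ A) * (W * star A W)
        = ((m ^ 4 : ℕ) : AddMonoidAlgebra ℤ A) * 1 := by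
      have h5 : psi A T (F * star A F) = (m : AddMonoidAlgebra ℤ A) ^ 2 := by
        rw [hF, map_pow, map_natCast]
      calc ((m ^ 4 : ℕ) : AddMonoidAlgebra ℤ A) * (W * star A W)
          = W0 * star A W0 := by
            rw [hW, map_mul, map_natCast]; push_cast; ring
        _ = psi A T (F * star A F) * (F * star A F) := by
            rw [hW0, map_mul, star_star, star_psi, map_mul]; ring
        _ = _ := by rw [h5, hF]; push_cast; ring
    exact natCast_mul_cancel (by positivity) h4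
  have h4 : psi A T F = W * F := by
    have h5 : ((m ^ 2 : ℕ) : AddMonoidAlgebra ℤ A) * psi A T F
        = ((m ^ 2 : ℕ) : AddMonoidAlgebra ℤ A) * (W * F) := by
      calc ((m ^ 2 : ℕ) : AddMonoidAlgebra ℤ A) * psi A T F
          = psi A T F * (F * star A F) := by rw [hF]; push_cast; ring
        _ = W0 * F := by rw [hW0]; ring
        _ = _ := by rw [hW]; ring
    exact natCast_mul_cancel (by positivity) h5
  have haug : aug A F ≠ 0 := by
    intro h0
    have h5 := congrArg (aug A) hF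
    rw [map_mul, h0, zero_mul, map_pow, map_natCast] at h5
    have h6 : (m : ℤ) ≠ 0 := by exact_mod_cast hm.ne'
    exact (pow_ne_zero 2 h6) h5.symm
  obtain ⟨g, hg | hg⟩ := eq_single_of_mul_star_eq_one h3
  · exact ⟨g, by rw [h4, hg]⟩
  · exfalso
    rw [hg] at h4
    have h5 := congrArg (aug A) h4
    rw [aug_psi, map_mul, map_neg, aug_single] at h5
    apply haug
    linarith

lemma inc_injective (E : ℕ) : Function.Injective (inc A E) :=
  mapDomain_injective (Subtype.val_injective (p := fun x => x ∈ tor A E))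

lemma star_inc (E : ℕ) (W : AddMonoidAlgebra ℤ (tor A E)) :
    star A (inc A E W) = inc A E (star (tor A E) W) := by
  have := hom_eq ((star A).comp (inc A E)) ((inc A E).comp (star (tor A E))) (by
    intro a r; simp) W
  simpa using this

/-- the same, if the support lies in a coset of the `E`-torsion subgroup and only the action on
this subgroup is known -/
lemma self_multiplier_tor [Finite A] (F : AddMonoidAlgebra ℤ A) {m : ℕ} (hm : 0 < m)
    (hmA : Nat.Coprime m (Nat.card A)) (hF : F * star A F = (m : AddMonoidAlgebra ℤ A) ^ 2)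
    {E : ℕ} (hsupp : ∀ x y, F.coeff x ≠ 0 → F.coeff y ≠ 0 → E • (x - y) = 0) (T : ℕ)
    (hT : ∀ q : ℕ, q.Prime → q ∣ m → ∃ i : ℕ, ∀ x : A, E • x = 0 → T • x = q ^ i • x) :
    ∃ g : A, psi A T F = single g 1 * F := by
  classical
  obtain ⟨x0, V1, hV1⟩ := exists_inc hsupp
  have hsing : ∀ g : A, single g (1 : ℤ) * star A (single g (1 : ℤ)) = 1 := by
    intro g
    rw [star_single, single_mul_single]
    simp [← one_def]
  have hV1s : V1 * star (tor A E) V1 = (m : AddMonoidAlgebra ℤ (tor A E)) ^ 2 := by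
    apply inc_injective E
    rw [map_mul, ← star_inc, map_pow, map_natCast]
    rw [hV1, map_mul] at hF
    calc inc A E V1 * star A (inc A E V1)
        = (single x0 (1 : ℤ) * star A (single x0 (1 : ℤ))) *
          (inc A E V1 * star A (inc A E V1)) := by rw [hsing, one_mul]
      _ = _ := by rw [← hF]; ring
  have hcard : Nat.card (tor A E) ∣ Nat.card A := AddSubgroup.card_addSubgroup_dvd_card _
  obtain ⟨g, hg⟩ := self_multiplier V1 hm (Nat.Coprime.coprime_dvd_right hcard hmA) hV1s T (by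
    intro q hq hqm
    obtain ⟨i, hi⟩ := hT q hq hqm
    refine ⟨i, fun x => ?_⟩
    apply Subtype.ext
    rw [AddSubgroup.coe_nsmul, AddSubgroup.coe_nsmul]
    exact hi x (mem_tor.mp x.2))
  refine ⟨T • x0 + g - x0, ?_⟩
  rw [hV1, map_mul, psi_single, psi_inc, hg, map_mul, inc_single, ← mul_assoc, ← mul_assoc,
    single_mul_single, single_mul_single]
  simp

/-- the uniform multiplier theorem in the group ring -/
theorem uniform (m : ℕ) (hm : 0 < m) : ∃ E : ℕ, 0 < E ∧
    ∀ (A : Type) [AddCommGroup A] [Fintype A] (X : AddMonoidAlgebra ℤ A) (n1 : ℕ) (μ : ℤ),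
      0 < n1 → X * star A X = ((m * n1 : ℕ) : AddMonoidAlgebra ℤ A)
        + (μ : AddMonoidAlgebra ℤ A) * allOne A →
      aug A X ≠ 0 → Nat.Coprime (m * n1) (Nat.card A) →
      ∀ t : ℕ, Nat.Coprime t (Nat.card A) →
      (∀ p : ℕ, p.Prime → p ∣ n1 → ∃ j : ℕ, ∀ x : A, t • x = p ^ j • x) →
      ∀ s : ℕ, (∀ q : ℕ, q.Prime → q ∣ m → ∃ i : ℕ, ∀ x : A, E • x = 0 → t ^ s • x = q ^ i • x) →
      ∃ g : A, psi A (t ^ s) X = single g 1 * X := by
  obtain ⟨E, hE, hB⟩ := support_bound m.primeFactors.card m hm le_rfl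
  refine ⟨E, hE, ?_⟩
  intro A _ _ X n1 μ hn1 hX haug hcop t htA ht s hs
  obtain ⟨F, hF, hrel⟩ := exists_F X m n1 hn1 μ hX hcop t htA ht
  have hmA : Nat.Coprime m (Nat.card A) :=
    Nat.Coprime.coprime_dvd_left (dvd_mul_right _ _) hcop
  exact key X (m * n1) μ (by positivity) hX haug t htA m hm hmA F hF hrel s
    (self_multiplier_tor F hm hmA hF (hB A F hmA hF) (t ^ s) hs)

end Pool.Agent.Lib.MP_5e14a0_um
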