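import Pool.Agent.Lib.MP_5e14a0_um.Main

/-!
The multiplier theorem for homomorphic images.
-/

namespace Pool.Agent.Lib.MP_5e14a0_um

open AddMonoidAlgebra

variable {A B : Type*} [AddCommGroup A] [AddCommGroup B]

lemma mapHom_star (π : A →+ B) (X : AddMonoidAlgebra ℤ A) :
    mapDomainRingHom ℤ π (star A X) = star B (mapDomainRingHom ℤ π X) := by
  have := hom_eq ((mapDomainRingHom ℤ π).comp (star A)) ((star B).comp (mapDomainRingHom ℤ π)) (by
    intro a r; simp) X
  simpa using this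

lemma mapHom_psi (π : A →+ B) (t : ℕ) (X : AddMonoidAlgebra ℤ A) :
    mapDomainRingHom ℤ π (psi A t X) = psi B t (mapDomainRingHom ℤ π X) := by
  have := hom_eq ((mapDomainRingHom ℤ π).comp (psi A t)) ((psi B t).comp (mapDomainRingHom ℤ π)) (by
    intro a r; simp) X
  simpa using this

/-- the image of `F` in `ℤ[B]` is mapped to a translate by `T` -/
lemma self_multiplier_map [Finite A] [Finite B] (π : A →+ B) (F : AddMonoidAlgebra ℤ A) {m : ℕ}
    (hm : 0 < m) (hmB : Nat.Coprime m (Nat.card B))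
    (hF : F * star A F = (m : AddMonoidAlgebra ℤ A) ^ 2)
    {E : ℕ} (hsupp : ∀ x y, F.coeff x ≠ 0 → F.coeff y ≠ 0 → E • (x - y) = 0) (T : ℕ)
    (hT : ∀ q : ℕ, q.Prime → q ∣ m → ∃ i : ℕ, ∀ x : A, E • x = 0 → T • π x = q ^ i • π x) :
    ∃ g : B, psi B T (mapDomainRingHom ℤ π F) = single g 1 * mapDomainRingHom ℤ π F := by
  classical
  obtain ⟨x0, V1, hV1⟩ := exists_inc hsupp
  have hsing : ∀ g : A, single g (1 : ℤ) * star A (single g (1 : ℤ)) = 1 := by
    intro g
    rw [star_single, single_mul_single]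
    simp [← one_def]
  have hV1s : V1 * star (tor A E) V1 = (m : AddMonoidAlgebra ℤ (tor A E)) ^ 2 := by
    apply inc_injective E
    rw [map_mul, ← star_inc, map_pow, map_natCast]
    rw [hV1, map_mul] at hF
    calc inc A E V1 * star A (inc A E V1)
        = (single x0 (1 : ℤ) * star A (single x0 (1 : ℤ))) *
          (inc A E V1 * star A (inc A E V1)) := by rw [hsing, one_mul]
      _ = _ := by rw [← hF]; ring
  -- the image of the torsion subgroup
  obtain ⟨φ, hφ⟩ : ∃ φ : tor A E →+ B, ∀ x, φ x = π (x : A) :=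
    ⟨π.comp (tor A E).subtype, fun _ => rfl⟩
  obtain ⟨V2, hV2⟩ : ∃ V2 : AddMonoidAlgebra ℤ φ.range,
      V2 = mapDomainRingHom ℤ φ.rangeRestrict V1 := ⟨_, rfl⟩
  have hV2s : V2 * star φ.range V2 = (m : AddMonoidAlgebra ℤ φ.range) ^ 2 := by
    rw [hV2, ← mapHom_star, ← map_mul, hV1s, map_pow, map_natCast]
  have hcard : Nat.card φ.range ∣ Nat.card B := AddSubgroup.card_addSubgroup_dvd_card _
  obtain ⟨g, hg⟩ := self_multiplier V2 hm (Nat.Coprime.coprime_dvd_right hcard hmB) hV2s T (by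
    intro q hq hqm
    obtain ⟨i, hi⟩ := hT q hq hqm
    refine ⟨i, fun x => ?_⟩
    apply Subtype.ext
    rw [AddSubgroup.coe_nsmul, AddSubgroup.coe_nsmul]
    obtain ⟨y, hy⟩ := x.2
    rw [← hy, hφ]
    exact hi y (mem_tor.mp y.2))
  have hmapV : mapDomainRingHom ℤ π (inc A E V1) = mapDomainRingHom ℤ φ.range.subtype V2 := by
    rw [hV2]
    have := hom_eq ((mapDomainRingHom ℤ π).comp (inc A E))
      ((mapDomainRingHom ℤ φ.range.subtype).comp (mapDomainRingHom ℤ φ.rangeRestrict)) (by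
      intro a r; simp [hφ]) V1
    simpa using this
  have hF' : mapDomainRingHom ℤ π F
      = single (π x0) (1 : ℤ) * mapDomainRingHom ℤ φ.range.subtype V2 := by
    rw [hV1, map_mul, hmapV]
    simp
  refine ⟨T • π x0 + (g : B) - π x0, ?_⟩
  rw [hF', map_mul, psi_single, ← mapHom_psi, hg, map_mul, ← mul_assoc, ← mul_assoc]
  have hgs : mapDomainRingHom ℤ φ.range.subtype (single g (1 : ℤ)) = single (g : B) (1 : ℤ) := by
    simp
  rw [hgs, single_mul_single, single_mul_single]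
  simp

/-- the uniform multiplier theorem for homomorphic images -/
theorem uniform_map (m : ℕ) (hm : 0 < m) : ∃ E : ℕ, 0 < E ∧
    ∀ (A B : Type) [AddCommGroup A] [Fintype A] [AddCommGroup B] [Fintype B] (π : A →+ B)
      (X : AddMonoidAlgebra ℤ A) (X' : AddMonoidAlgebra ℤ B) (n1 : ℕ) (μ μ' : ℤ),
      0 < n1 → X * star A X = ((m * n1 : ℕ) : AddMonoidAlgebra ℤ A)
        + (μ : AddMonoidAlgebra ℤ A) * allOne A →
      mapDomainRingHom ℤ π X = X' →
      X' * star B X' = ((m * n1 : ℕ) : AddMonoidAlgebra ℤ B)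
        + (μ' : AddMonoidAlgebra ℤ B) * allOne B →
      aug B X' ≠ 0 → Nat.Coprime (m * n1) (Nat.card A) → Nat.Coprime (m * n1) (Nat.card B) →
      ∀ t : ℕ, Nat.Coprime t (Nat.card A) → Nat.Coprime t (Nat.card B) →
      (∀ p : ℕ, p.Prime → p ∣ n1 → ∃ j : ℕ, ∀ x : A, t • x = p ^ j • x) →
      ∀ s : ℕ, (∀ q : ℕ, q.Prime → q ∣ m →
        ∃ i : ℕ, ∀ x : A, E • x = 0 → t ^ s • π x = q ^ i • π x) →
      ∃ g : B, psi B (t ^ s) X' = single g 1 * X' := by
  obtain ⟨E, hE, hB⟩ := support_bound m.primeFactors.card m hm le_rfl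
  refine ⟨E, hE, ?_⟩
  intro A B _ _ _ _ π X X' n1 μ μ' hn1 hX hXX' hX' haug hcop hcop' t htA htB ht s hs
  obtain ⟨F, hF, hrel⟩ := exists_F X m n1 hn1 μ hX hcop t htA ht
  have hmA : Nat.Coprime m (Nat.card A) :=
    Nat.Coprime.coprime_dvd_left (dvd_mul_right _ _) hcop
  have hmB : Nat.Coprime m (Nat.card B) :=
    Nat.Coprime.coprime_dvd_left (dvd_mul_right _ _) hcop'
  refine key X' (m * n1) μ' (by positivity) hX' haug t htB m hm hmB (mapDomainRingHom ℤ π F) ?_ ?_ s
    (self_multiplier_map π F hm hmB hF (hB A F hmA hF) (t ^ s) hs)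
  · rw [← mapHom_star, ← map_mul, hF, map_pow, map_natCast]
  · have h1 := congrArg (mapDomainRingHom ℤ π) hrel
    rw [map_mul, map_mul, mapHom_psi, hXX', map_natCast] at h1
    exact h1

end Pool.Agent.Lib.MP_5e14a0_um
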