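import Mathlib

/-!
Commutative rings with a lift of the Frobenius map of finite order.
If `φ x ≡ x ^ p (mod p)` and `x ^ (p ^ f) ≡ x (mod p)` for all `x`, then for every `a` the element
`φ x` is a multiple of `x` modulo `p ^ a`.
-/

namespace Pool.Agent.Lib.MP_5e14a0_um

variable {S : Type*} [CommRing S]

/-- `e ^ 2 ≡ e` implies `e ^ k ≡ e` for `k ≥ 1`. -/
lemma dvd_pow_sub_self {d e : S} (he : d ∣ e ^ 2 - e) : ∀ k : ℕ, 1 ≤ k → d ∣ e ^ k - e := by
  intro k hk
  induction k with
  | zero => omega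
  | succ k ih =>
    rcases Nat.eq_zero_or_pos k with rfl | hk'
    · simp
    · have h1 := ih hk'
      have h2 : e ^ (k + 1) - e = e * (e ^ k - e) + (e ^ 2 - e) := by ring
      rw [h2]
      exact dvd_add (Dvd.dvd.mul_left h1 e) he

/-- `X θ ≡ X` implies `X θ ^ k ≡ X`. -/
lemma dvd_mul_pow_sub {d X θ : S} (h : d ∣ X * θ - X) : ∀ k : ℕ, d ∣ X * θ ^ k - X := by
  intro k
  induction k with
  | zero => simp
  | succ k ih =>
    have h2 : X * θ ^ (k + 1) - X = θ * (X * θ ^ k - X) + (X * θ - X) := by ring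
    rw [h2]
    exact dvd_add (Dvd.dvd.mul_left ih θ) h

/-- Main lemma: the image of `X` under a Frobenius lift of finite order is a multiple of `X`
modulo every power of `p`. -/
lemma frob_dvd {p : ℕ} (hp : p.Prime) (φ : S →+* S) (hφ : ∀ x, (p : S) ∣ φ x - x ^ p)
    {f : ℕ} (hf : 0 < f) (hid : ∀ x : S, (p : S) ∣ x ^ (p ^ f) - x) :
    ∀ (a : ℕ) (X : S), ∃ Y : S, (p : S) ^ a ∣ φ X - X * Y := by
  intro a
  induction a with
  | zero => intro X; exact ⟨0, by simp⟩
  | succ a ih =>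
    intro X
    have hp2 : 2 ≤ p ^ f := le_trans hp.two_le (by
      calc p = p ^ 1 := (pow_one p).symm
        _ ≤ p ^ f := Nat.pow_le_pow_right hp.pos hf)
    obtain ⟨θ, hθ⟩ : ∃ θ : S, θ = X ^ (p ^ f - 1) := ⟨_, rfl⟩
    have hXθ : X * θ = X ^ (p ^ f) := by
      rw [hθ, ← pow_succ']
      congr 1
      omega
    have h1 : (p : S) ∣ X * θ - X := by rw [hXθ]; exact hid X
    have h2 : (p : S) ∣ θ ^ 2 - θ := by
      have : θ ^ 2 - θ = X ^ (p ^ f - 2) * (X * θ - X) := by
        have h3 : θ = X ^ (p ^ f - 2) * X := by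
          rw [hθ, ← pow_succ]
          congr 1
          omega
        have h4 : θ ^ 2 = X ^ (p ^ f - 2) * (X * θ) := by
          rw [sq]
          nth_rewrite 1 [h3]
          ring
        rw [h4]
        nth_rewrite 2 [h3]
        ring
      rw [this]
      exact Dvd.dvd.mul_left h1 _
    obtain ⟨e, he⟩ : ∃ e : S, e = θ ^ (p ^ a) := ⟨_, rfl⟩
    have hpa : 1 ≤ p ^ a := Nat.one_le_pow _ _ hp.pos
    have hpaS : (p : S) ∣ (p : S) ^ (a + 1) := dvd_pow_self _ (Nat.succ_ne_zero a)
    -- e is idempotent mod p^(a+1)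
    have he2 : (p : S) ^ (a + 1) ∣ e ^ 2 - e := by
      have h3 := dvd_sub_pow_of_dvd_sub h2 a
      have h4 : e ^ 2 - e = (θ ^ 2) ^ (p ^ a) - θ ^ (p ^ a) := by
        rw [he, ← pow_mul, ← pow_mul, mul_comm]
      rw [h4]
      exact h3
    have he2φ : (p : S) ^ (a + 1) ∣ (φ e) ^ 2 - φ e := by
      obtain ⟨c, hc⟩ := he2
      refine ⟨φ c, ?_⟩
      have := congrArg φ hc
      simpa using this
    -- φ e ≡ e mod p
    have h5 : (p : S) ∣ φ e - e := by
      have h6 := hφ e
      have h7 : (p : S) ∣ e ^ p - e := dvd_pow_sub_self (dvd_trans hpaS he2) p hp.one_lt.le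
      have h8 : φ e - e = (φ e - e ^ p) + (e ^ p - e) := by ring
      rw [h8]
      exact dvd_add h6 h7
    -- φ e ≡ e mod p^(a+1)
    have h9 : (p : S) ^ (a + 1) ∣ φ e - e := by
      have h10 := dvd_sub_pow_of_dvd_sub h5 a
      have h11 := dvd_pow_sub_self he2 (p ^ a) hpa
      have h12 := dvd_pow_sub_self he2φ (p ^ a) hpa
      have h13 : φ e - e = ((φ e) ^ (p ^ a) - e ^ (p ^ a)) - ((φ e) ^ (p ^ a) - φ e)
          + (e ^ (p ^ a) - e) := by ring
      rw [h13]
      exact dvd_add (dvd_sub h10 h12) h11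
    -- (1 - e) X ≡ 0 mod p
    have h14 : (p : S) ∣ X - X * e := by
      have h15 := dvd_mul_pow_sub h1 (p ^ a)
      have h16 : X - X * e = -(X * θ ^ (p ^ a) - X) := by rw [he]; ring
      rw [h16]
      exact (dvd_neg).mpr h15
    obtain ⟨X1, hX1⟩ := h14
    obtain ⟨Y1, hY1⟩ := ih X1
    obtain ⟨c1, hc1⟩ := hY1
    obtain ⟨c2, hc2⟩ := h9
    -- exponent of X in e
    have hN : e = X * X ^ ((p ^ f - 1) * p ^ a - 1) := by
      rw [he, hθ, ← pow_mul, ← pow_succ']
      congr 1
      have : 1 ≤ (p ^ f - 1) * p ^ a := Nat.one_le_iff_ne_zero.mpr (by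
        apply Nat.mul_ne_zero
        · omega
        · omega)
      omega
    refine ⟨X ^ ((p ^ f - 1) * p ^ a - 1) * φ X + (1 - e) * Y1, ?_⟩
    refine ⟨c1 + c2 * φ X, ?_⟩
    have k1 : φ X - φ X * φ e = (p : S) * φ X1 := by
      have := congrArg φ hX1
      simpa using this
    have k2 : φ X1 = X1 * Y1 + (p : S) ^ a * c1 := by
      have : φ X1 = (φ X1 - X1 * Y1) + X1 * Y1 := by ring
      rw [this, hc1]
      ring
    have k3 : φ e = e + (p : S) ^ (a + 1) * c2 := by
      have : φ e = (φ e - e) + e := by ring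
      rw [this, hc2]
      ring
    have k4 : φ X = φ X * φ e + (p : S) * φ X1 := by
      rw [← k1]; ring
    have k5 : X * (X ^ ((p ^ f - 1) * p ^ a - 1) * φ X + (1 - e) * Y1)
        = e * φ X + (X - X * e) * Y1 := by
      nth_rewrite 2 [hN]
      ring
    rw [k5, hX1]
    nth_rewrite 1 [k4]
    rw [k3, k2]
    ring

/-- The ring has no nilpotents modulo `p`. -/
lemma dvd_of_dvd_pow {p : ℕ} (hp : p.Prime) {f : ℕ} (hf : 0 < f)
    (hid : ∀ x : S, (p : S) ∣ x ^ (p ^ f) - x) {X : S} {j : ℕ} (h : (p : S) ∣ X ^ j) :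
    (p : S) ∣ X := by
  have h1 : ∀ i : ℕ, (p : S) ∣ X ^ (p ^ (f * i)) - X := by
    intro i
    induction i with
    | zero => simp
    | succ i ih =>
      have h2 : X ^ (p ^ (f * (i + 1))) - X
          = ((X ^ (p ^ (f * i))) ^ (p ^ f) - X ^ (p ^ (f * i))) + (X ^ (p ^ (f * i)) - X) := by
        rw [← pow_mul, ← pow_add, Nat.mul_succ]
        ring
      rw [h2]
      exact dvd_add (hid _) ih
  have h3 : j ≤ p ^ (f * j) := by
    have h4 : j ≤ f * j := Nat.le_mul_of_pos_left j hf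
    exact le_trans h4 (Nat.lt_pow_self hp.one_lt).le
  have h5 : (p : S) ∣ X ^ (p ^ (f * j)) := dvd_trans h (pow_dvd_pow X h3)
  have h6 := dvd_sub h5 (h1 j)
  have h7 : X ^ (p ^ (f * j)) - (X ^ (p ^ (f * j)) - X) = X := by ring
  rwa [h7] at h6

/-- If `U ^ j = N ^ j * w` and the ring is reduced modulo and torsion free for every prime
dividing `N`, then `N` divides `U`. -/
lemma nat_dvd_of_pow_eq : ∀ (N : ℕ), 0 < N →
    (∀ p : ℕ, p.Prime → p ∣ N → (∃ f : ℕ, 0 < f ∧ ∀ x : S, (p : S) ∣ x ^ (p ^ f) - x)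
      ∧ ∀ x : S, (p : S) * x = 0 → x = 0) →
    ∀ (j : ℕ), 1 ≤ j → ∀ U w : S, U ^ j = (N : S) ^ j * w → (N : S) ∣ U := by
  intro N
  induction N using Nat.strong_induction_on with
  | _ N ih =>
    intro hN hprime j hj U w hU
    rcases Nat.lt_or_ge 1 N with h1 | h1
    · obtain ⟨p, hp, hpN⟩ := Nat.exists_prime_and_dvd (Nat.ne_of_gt h1)
      obtain ⟨N', rfl⟩ := hpN
      have hN' : 0 < N' := Nat.pos_of_ne_zero (by rintro rfl; simp at hN)
      obtain ⟨⟨f, hf, hid⟩, htf⟩ := hprime p hp (dvd_mul_right p N')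
      have h2 : (p : S) ∣ U := by
        apply dvd_of_dvd_pow hp hf hid (j := j)
        rw [hU]
        push_cast
        rw [mul_pow]
        have : (p : S) ∣ (p : S) ^ j := dvd_pow_self _ (by omega)
        exact Dvd.dvd.mul_right (Dvd.dvd.mul_right this _) _
      obtain ⟨U1, rfl⟩ := h2
      have htf' : ∀ (i : ℕ) (x : S), (p : S) ^ i * x = 0 → x = 0 := by
        intro i
        induction i with
        | zero => intro x hx; simpa using hx
        | succ i ihi =>
          intro x hx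
          apply htf
          apply ihi
          rw [← hx]
          ring
      have h3 : U1 ^ j = (N' : S) ^ j * w := by
        have h4 : (p : S) ^ j * (U1 ^ j - (N' : S) ^ j * w) = 0 := by
          have h5 : (p : S) ^ j * (U1 ^ j - (N' : S) ^ j * w)
              = ((p : S) * U1) ^ j - ((p : S) * (N' : S)) ^ j * w := by
            rw [mul_pow, mul_pow]; ring
          rw [h5, hU]
          push_cast
          ring
        exact sub_eq_zero.mp (htf' j _ h4)
      have hlt : N' < p * N' := by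
        have := hp.one_lt
        nlinarith
      have h6 := ih N' hlt hN' (fun q hq hqN => hprime q hq (Dvd.dvd.mul_left hqN p)) j hj U1 w h3
      push_cast
      exact mul_dvd_mul_left _ h6
    · have : N = 1 := by omega
      subst this
      simp

end Pool.Agent.Lib.MP_5e14a0_um
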