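import Pool.Agent.Lib.MP_5e14a0_um.Key

/-!
Elements `F` of `ℤ[A]` with `F F^(-1) = M ^ 2`, where `M` is prime to the order of `A`:
the differences of the elements of the support have order bounded in terms of `M` alone.
-/

namespace Pool.Agent.Lib.MP_5e14a0_um

open AddMonoidAlgebra

variable {A : Type*} [AddCommGroup A]

/-- the Frobenius step -/
lemma frob_step [Finite A] {p e M0 : ℕ} (hp : p.Prime) (hpA : Nat.Coprime p (Nat.card A))
    (F : AddMonoidAlgebra ℤ A)
    (hF : F * star A F = ((p ^ e * M0 : ℕ) : AddMonoidAlgebra ℤ A) ^ 2) :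
    ∃ F' : AddMonoidAlgebra ℤ A, F' * star A F' = ((M0 ^ 2 : ℕ) : AddMonoidAlgebra ℤ A) ^ 2 ∧
      ((M0 ^ 2 : ℕ) : AddMonoidAlgebra ℤ A) * psi A p F = F' * F := by
  obtain ⟨Y, c, hY⟩ := psi_dvd hp hpA (2 * e) F
  have h1 : psi A p F = F * Y + (p : AddMonoidAlgebra ℤ A) ^ (2 * e) * c := by
    rw [← hY]; ring
  have h2 : psi A p F * star A F = (p : AddMonoidAlgebra ℤ A) ^ (2 * e) *
      ((M0 : AddMonoidAlgebra ℤ A) ^ 2 * Y + c * star A F) := by
    rw [h1]
    calc (F * Y + (p : AddMonoidAlgebra ℤ A) ^ (2 * e) * c) * star A F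
        = (F * star A F) * Y + (p : AddMonoidAlgebra ℤ A) ^ (2 * e) * (c * star A F) := by ring
      _ = _ := by
        rw [hF]; push_cast; ring
  obtain ⟨F', hF'⟩ : ∃ F' : AddMonoidAlgebra ℤ A,
      F' = (M0 : AddMonoidAlgebra ℤ A) ^ 2 * Y + c * star A F := ⟨_, rfl⟩
  rw [← hF'] at h2
  have hppos : 0 < p := hp.pos
  refine ⟨F', ?_, ?_⟩
  · -- p^(4e) F' F'^* = psi (F F*) * (F F*)
    have h3 : ((p ^ (4 * e) : ℕ) : AddMonoidAlgebra ℤ A) * (F' * star A F')
        = ((p ^ (4 * e) : ℕ) : AddMonoidAlgebra ℤ A) *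
          (((M0 ^ 2 : ℕ) : AddMonoidAlgebra ℤ A) ^ 2) := by
      have h4 : psi A p (F * star A F) = ((p ^ e * M0 : ℕ) : AddMonoidAlgebra ℤ A) ^ 2 := by
        rw [hF, map_pow, map_natCast]
      have h5 : (psi A p F * star A F) * star A (psi A p F * star A F)
          = psi A p (F * star A F) * (F * star A F) := by
        rw [map_mul, star_star, star_psi, map_mul]; ring
      rw [h4, hF, h2, map_mul, map_pow, map_natCast] at h5
      calc ((p ^ (4 * e) : ℕ) : AddMonoidAlgebra ℤ A) * (F' * star A F')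
          = (p : AddMonoidAlgebra ℤ A) ^ (2 * e) * F' *
            ((p : AddMonoidAlgebra ℤ A) ^ (2 * e) * star A F') := by push_cast; ring
        _ = _ := by rw [h5]; push_cast; ring
    exact natCast_mul_cancel (by positivity) h3
  · have h3 : ((p ^ (2 * e) : ℕ) : AddMonoidAlgebra ℤ A) *
        (((M0 ^ 2 : ℕ) : AddMonoidAlgebra ℤ A) * psi A p F)
        = ((p ^ (2 * e) : ℕ) : AddMonoidAlgebra ℤ A) * (F' * F) := by
      calc ((p ^ (2 * e) : ℕ) : AddMonoidAlgebra ℤ A) *
            (((M0 ^ 2 : ℕ) : AddMonoidAlgebra ℤ A) * psi A p F)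
          = psi A p F * (((p ^ e * M0 : ℕ) : AddMonoidAlgebra ℤ A) ^ 2) := by
            push_cast; ring
        _ = (psi A p F * star A F) * F := by rw [← hF]; ring
        _ = _ := by rw [h2]; push_cast; ring
    exact natCast_mul_cancel (by positivity) h3

/-- the permutation step -/
lemma perm_step [Fintype A] {M P : ℕ} (hP : Nat.Coprime P (Nat.card A))
    (F : AddMonoidAlgebra ℤ A) (hF : F * star A F = (M : AddMonoidAlgebra ℤ A) ^ 2) (h : A)
    (hPF : psi A P F = single h 1 * F) :
    ∀ x y, F.coeff x ≠ 0 → F.coeff y ≠ 0 →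
      P ^ (M ^ 2).factorial • (x - y) = x - y := by
  classical
  have hbij : Function.Bijective (fun x : A => P • x) :=
    Nat.Coprime.nsmul_right_bijective hP.symm
  -- invariance of the coefficients
  have h1 : ∀ y : A, F.coeff (-h + P • y) = F.coeff y := by
    intro y
    have h2 : (psi A P F).coeff (P • y) = F.coeff y :=
      Finsupp.mapDomain_apply (f := fun x : A => P • x) hbij.injective F.coeff y
    rw [hPF, coeff_single_mul_apply, one_mul] at h2
    exact h2
  -- the size of the support
  have h3 : F.coeff.support.card ≤ M ^ 2 := by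
    have h4 := coeff_mul_star F
    rw [hF] at h4
    have h5 : ((M : AddMonoidAlgebra ℤ A) ^ 2).coeff 0 = (M : ℤ) ^ 2 := by
      have : (M : AddMonoidAlgebra ℤ A) ^ 2 = ((M ^ 2 : ℕ) : AddMonoidAlgebra ℤ A) := by
        push_cast; rfl
      rw [this, coeff_natCast]
      simp
    rw [h5] at h4
    have h6 : ((F.coeff.support.card : ℕ) : ℤ) ≤ ∑ g : A, F.coeff g ^ 2 := by
      calc ((F.coeff.support.card : ℕ) : ℤ) = ∑ g ∈ F.coeff.support, (1 : ℤ) := by simp
        _ ≤ ∑ g ∈ F.coeff.support, F.coeff g ^ 2 := by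
            apply Finset.sum_le_sum
            intro g hg
            have : F.coeff g ≠ 0 := by simpa using hg
            exact Int.add_one_le_iff.mpr (sq_pos_iff.mpr this)
        _ ≤ ∑ g : A, F.coeff g ^ 2 :=
            Finset.sum_le_sum_of_subset_of_nonneg (Finset.subset_univ _)
              (fun i _ _ => sq_nonneg _)
    rw [← h4] at h6
    exact_mod_cast h6
  -- the permutation of the support
  have hinj : Function.Injective
      (fun y : F.coeff.support => (⟨-h + P • (y : A), by
        have := y.2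
        rw [Finsupp.mem_support_iff] at this ⊢
        rwa [h1]⟩ : F.coeff.support)) := by
    intro a b hab
    have h7 := congrArg Subtype.val hab
    simp only [add_right_inj] at h7
    exact Subtype.ext (hbij.injective h7)
  obtain ⟨σ, hσ⟩ : ∃ σ : Equiv.Perm F.coeff.support,
      ∀ y : F.coeff.support, ((σ y : F.coeff.support) : A) = -h + P • (y : A) :=
    ⟨Equiv.ofBijective _ (Finite.injective_iff_bijective.mp hinj), fun y => rfl⟩
  have h8 : σ ^ (M ^ 2).factorial = 1 := by
    have h9 : (F.coeff.support.card).factorial ∣ (M ^ 2).factorial :=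
      Nat.factorial_dvd_factorial h3
    obtain ⟨k, hk⟩ := h9
    have h10 : σ ^ (F.coeff.support.card).factorial = 1 := by
      have h11 := pow_card_eq_one (x := σ)
      rw [Fintype.card_perm, Fintype.card_coe] at h11
      exact h11
    rw [hk, pow_mul, h10, one_pow]
  have h9 : ∀ (k : ℕ) (a b : F.coeff.support),
      (((σ ^ k) a : F.coeff.support) : A) - (((σ ^ k) b : F.coeff.support) : A)
        = P ^ k • ((a : A) - (b : A)) := by
    intro k
    induction k with
    | zero => intro a b; simp
    | succ k ih =>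
      intro a b
      rw [pow_succ', Equiv.Perm.mul_apply, Equiv.Perm.mul_apply, hσ, hσ, pow_succ', mul_nsmul',
        ← ih a b, smul_sub]
      abel
  intro x y hx hy
  have hx' : x ∈ F.coeff.support := by simpa using hx
  have hy' : y ∈ F.coeff.support := by simpa using hy
  have h10 := h9 (M ^ 2).factorial ⟨x, hx'⟩ ⟨y, hy'⟩
  rw [h8] at h10
  simpa using h10.symm

/-- the support of a solution of `F F^(-1) = M ^ 2` generates a group of bounded exponent -/
theorem support_bound : ∀ (k M : ℕ), 0 < M → M.primeFactors.card ≤ k →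
    ∃ E : ℕ, 0 < E ∧ ∀ (A : Type) [AddCommGroup A] [Fintype A] (F : AddMonoidAlgebra ℤ A),
      Nat.Coprime M (Nat.card A) → F * star A F = (M : AddMonoidAlgebra ℤ A) ^ 2 →
      ∀ x y, F.coeff x ≠ 0 → F.coeff y ≠ 0 → E • (x - y) = 0 := by
  intro k
  induction k with
  | zero =>
    intro M hM hk
    have hM1 : M = 1 := by
      have h1 : M.primeFactors = ∅ := Finset.card_eq_zero.mp (by omega)
      rcases Nat.primeFactors_eq_empty.mp h1 with h | h
      · omega
      · exact h
    subst hM1
    refine ⟨1, one_pos, ?_⟩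
    intro A _ _ F _ hF x y hx hy
    have h2 : F * star A F = 1 := by rw [hF]; simp
    obtain ⟨g, hg | hg⟩ := eq_single_of_mul_star_eq_one h2
    · rw [hg, coeff_single, Finsupp.single_apply_ne_zero] at hx hy
      rw [one_nsmul, hx.1, hy.1, sub_self]
    · rw [hg, coeff_neg, Finsupp.neg_apply, neg_ne_zero, coeff_single,
        Finsupp.single_apply_ne_zero] at hx hy
      rw [one_nsmul, hx.1, hy.1, sub_self]
  | succ k ih =>
    intro M hM hk
    rcases Nat.lt_or_ge 1 M with h1 | h1
    · obtain ⟨p, hp, hpM⟩ := Nat.exists_prime_and_dvd (Nat.ne_of_gt h1)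
      obtain ⟨e, M0, hM0, hMe⟩ := Nat.exists_eq_pow_mul_and_not_dvd hM.ne' p hp.ne_one
      have hM0pos : 0 < M0 := Nat.pos_of_ne_zero (by rintro rfl; simp at hM0)
      have he : e ≠ 0 := by
        rintro rfl
        rw [pow_zero, one_mul] at hMe
        exact hM0 (hMe ▸ hpM)
      have hcard : (M0 ^ 2).primeFactors.card ≤ k := by
        rw [Nat.primeFactors_pow _ two_ne_zero]
        have h2 : M.primeFactors = insert p M0.primeFactors := by
          rw [hMe, Nat.Coprime.primeFactors_mul, Nat.primeFactors_pow _ he, hp.primeFactors]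
          · rfl
          · exact Nat.Coprime.pow_left e ((Nat.Prime.coprime_iff_not_dvd hp).mpr hM0)
        rw [h2, Finset.card_insert_of_notMem] at hk
        · omega
        · intro h3
          exact hM0 (Nat.dvd_of_mem_primeFactors h3)
      obtain ⟨E', hE', hB⟩ := ih (M0 ^ 2) (by positivity) hcard
      obtain ⟨P, hPdef⟩ : ∃ P : ℕ, P = p ^ E'.totient := ⟨_, rfl⟩
      have hP2 : 2 ≤ P := by
        rw [hPdef]
        calc 2 ≤ p := hp.two_le
          _ = p ^ 1 := (pow_one p).symm
          _ ≤ p ^ E'.totient := Nat.pow_le_pow_right hp.pos (Nat.totient_pos.mpr hE')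
      have hPL : 2 ≤ P ^ (M ^ 2).factorial := by
        calc 2 ≤ P := hP2
          _ = P ^ 1 := (pow_one P).symm
          _ ≤ _ := Nat.pow_le_pow_right (by omega) (Nat.factorial_pos _)
      refine ⟨P ^ (M ^ 2).factorial - 1, by omega, ?_⟩
      intro A _ _ F hMA hF x y hx hy
      have hpA : Nat.Coprime p (Nat.card A) := Nat.Coprime.coprime_dvd_left hpM hMA
      have hM0A : Nat.Coprime (M0 ^ 2) (Nat.card A) := by
        apply Nat.Coprime.pow_left
        apply Nat.Coprime.coprime_dvd_left _ hMA
        rw [hMe]; exact dvd_mul_left _ _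
      have hF0 : F * star A F = ((p ^ e * M0 : ℕ) : AddMonoidAlgebra ℤ A) ^ 2 := by
        rw [← hMe]; exact hF
      obtain ⟨F', hF', hrel⟩ := frob_step hp hpA F hF0
      have haug : aug A F ≠ 0 := by
        intro h0
        have h3 := congrArg (aug A) hF
        rw [map_mul, h0, zero_mul, map_pow, map_natCast] at h3
        have h4 : (M : ℤ) ≠ 0 := by exact_mod_cast hM.ne'
        exact (pow_ne_zero 2 h4) h3.symm
      obtain ⟨g, hg⟩ := key F (M ^ 2) 0 (by positivity) (by
        rw [hF]; push_cast; ring) haug p hpA (M0 ^ 2) (by positivity) hM0A F' hF' hrel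
        E'.totient (psi_translate_of_trivial (hB A F' hM0A hF') (fun x hx => smul_tor_eq hpA hx))
      rw [← hPdef] at hg
      have hPA : Nat.Coprime P (Nat.card A) := by rw [hPdef]; exact Nat.Coprime.pow_left _ hpA
      have h5 := perm_step hPA F hF g hg x y hx hy
      have h6 : (P ^ (M ^ 2).factorial - 1) • (x - y) + (x - y) = x - y := by
        rw [← succ_nsmul]
        rw [show P ^ (M ^ 2).factorial - 1 + 1 = P ^ (M ^ 2).factorial by omega]
        exact h5
      exact add_eq_right.mp h6
    · have hM1 : M = 1 := by omega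
      subst hM1
      exact ih 1 one_pos (by simp)

end Pool.Agent.Lib.MP_5e14a0_um
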